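import Pool.Agent.Y444.WA.E

/-!
# Productively weakly Lindelöf spaces that are not weakly Alster: Banach spaces in the weak topology

The definitions `WeaklyLindelof`, `ProductivelyWeaklyLindelof`, `WeaklyAlster` are in
`Pool.Agent.Y444.WA.A`. Main steps of the proof:

* `PP_of_denseRange`: every dense subspace `X` of an arbitrary product of spaces of countable
  `π`-weight has the following property: if every point `x` has a sequence `U x n` of open
  neighbourhoods, then there is a countable `C` such that for every function `f` the union of the
  sets `U x (f x)`, `x ∈ C`, is dense (closing off argument).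
* `productively_of_PP`: this property implies that the space is productively weakly Lindelöf.
* `PP_weakBilin`: weak topologies are dense subspaces of products of lines.
* `separable_of_weaklyAlster`: a weakly Alster space with a coarser separable metrizable topology
  is separable.
-/

set_option autoImplicit false

open Set Topology TopologicalSpace Pool.Agent.Y444.WA

namespace Pool.Agent.Results.MP_b47357_gt.WeakTopologies

universe u v

/-- Countably many continuous linear functionals separate the points of `X`. -/
def CountablySeparated (X : Type u) [AddCommGroup X] [Module ℝ X] [TopologicalSpace X] : Prop :=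
  ∃ f : ℕ → X →L[ℝ] ℝ, ∀ x, (∀ n, f n x = 0) → x = 0

/-- The Banach space `ℓ^∞` of bounded real sequences, with its weak topology. -/
def WeakEllInf : Type := WeakSpace ℝ (lp (fun _ : ℕ => ℝ) ⊤)

noncomputable instance : TopologicalSpace WeakEllInf :=
  inferInstanceAs (TopologicalSpace (WeakSpace ℝ (lp (fun _ : ℕ => ℝ) ⊤)))

/-- Every real locally convex space is productively weakly Lindelöf in its weak topology. If
countably many continuous functionals separate its points, the weak topology is Tychonoff, and it is
weakly Alster if and only if the space is separable. In particular the Banach space `ℓ^∞` with its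
weak topology is a Tychonoff space which is productively weakly Lindelöf, but not weakly Alster. -/
theorem result :
    (∀ (X : Type u) [AddCommGroup X] [Module ℝ X] [TopologicalSpace X] [IsTopologicalAddGroup X]
      [ContinuousSMul ℝ X] [LocallyConvexSpace ℝ X],
      ProductivelyWeaklyLindelof.{u, v} (WeakSpace ℝ X) ∧
      (CountablySeparated X →
        T35Space (WeakSpace ℝ X) ∧ (WeaklyAlster (WeakSpace ℝ X) ↔ SeparableSpace X))) ∧
    (T35Space WeakEllInf ∧ ProductivelyWeaklyLindelof.{0, v} WeakEllInf ∧
      ¬ WeaklyAlster WeakEllInf) := by
  refine ⟨?_, t35_weakSpace (lp (fun _ : ℕ => ℝ) ⊤),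
    productively_weakSpace (lp (fun _ : ℕ => ℝ) ⊤), ellInf_not_weaklyAlster⟩
  intro X _ _ _ _ _ _
  refine ⟨productively_weakSpace X, ?_⟩
  rintro ⟨f, hf⟩
  refine ⟨?_, weakSpace_weaklyAlster_iff X f hf⟩
  have h : Function.Injective (topDualPairing ℝ X).flip := by
    intro x y hxy
    have h1 : x - y = 0 := by
      apply hf
      intro n
      rw [map_sub]
      exact sub_eq_zero.mpr (LinearMap.congr_fun hxy (f n))
    exact sub_eq_zero.mp h1
  exact (WeakBilin.isEmbedding h).t35Space

end Pool.Agent.Results.MP_b47357_gt.WeakTopologies
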